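import Pool.Agent.Helper69.QG.St3

set_option linter.unusedSimpArgs false

namespace Pool.Agent.Helper72.QG

open Pool.Agent.Helper69.QG

private theorem first {G : Type} [Group G] (A B z : G)
    (hzd : (A * B * A⁻¹ * B⁻¹) ^ 2 = z) (hz : ∀ x : G, Commute z x) (hz2 : z * z = 1) :
    wa1 A B * wb1 A B * (wa1 A B)⁻¹ * (wb1 A B)⁻¹ *
      (wa2 A B * wb2 A B * (wa2 A B)⁻¹ * (wb2 A B)⁻¹) = 1 := by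
  have e1 : (A * B) * (A ^ 4)⁻¹ * (A ^ 2 * B * (A ^ 3)⁻¹)⁻¹ * (A ^ 3 * B * (A ^ 2)⁻¹) *
      (B * A⁻¹)⁻¹ = z := by
    rw [← hzd]
    simp only [pow_succ, pow_zero, one_mul, mul_one, mul_inv_rev, inv_inv, mul_assoc,
      inv_mul_cancel_left, mul_inv_cancel_left, inv_mul_cancel, mul_inv_cancel]
  have e2 : (A ^ 2 * B * (A ^ 3)⁻¹) * (A ^ 3 * B * (A ^ 2)⁻¹)⁻¹ * A ^ 4 * (B * A⁻¹) *
      (A * B)⁻¹ = z := by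
    have h1 : (A ^ 2 * B * (A ^ 3)⁻¹) * (A ^ 3 * B * (A ^ 2)⁻¹)⁻¹ * A ^ 4 * (B * A⁻¹) *
        (A * B)⁻¹ = A * ((A * B * A⁻¹ * B⁻¹) ^ 2) * A⁻¹ := by
      simp only [pow_succ, pow_zero, one_mul, mul_one, mul_inv_rev, inv_inv, mul_assoc,
      inv_mul_cancel_left, mul_inv_cancel_left, inv_mul_cancel, mul_inv_cancel]
    rw [h1, hzd, ← (hz A).eq, mul_assoc, mul_inv_cancel, mul_one]
  have e3 : wa1 A B * wb1 A B * (wa1 A B)⁻¹ * (wb1 A B)⁻¹ *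
      (wa2 A B * wb2 A B * (wa2 A B)⁻¹ * (wb2 A B)⁻¹) =
      (A ^ 2 * B * (A ^ 3)⁻¹) * (B * A⁻¹)⁻¹ *
        ((A * B) * (A ^ 4)⁻¹ * (A ^ 2 * B * (A ^ 3)⁻¹)⁻¹ * (A ^ 3 * B * (A ^ 2)⁻¹) *
          (B * A⁻¹)⁻¹) * (B * A⁻¹) * (A ^ 3 * B * (A ^ 2)⁻¹)⁻¹ * A ^ 4 * (B * A⁻¹) *
        (A * B)⁻¹ := by
    unfold wa1 wb1 wa2 wb2
    simp only [pow_succ, pow_zero, one_mul, mul_one, mul_inv_rev, inv_inv, mul_assoc,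
      inv_mul_cancel_left, mul_inv_cancel_left, inv_mul_cancel, mul_inv_cancel]
  rw [e3, e1, ← (hz ((A ^ 2 * B * (A ^ 3)⁻¹) * (B * A⁻¹)⁻¹)).eq]
  have e4 : z * ((A ^ 2 * B * (A ^ 3)⁻¹) * (B * A⁻¹)⁻¹) * (B * A⁻¹) *
      (A ^ 3 * B * (A ^ 2)⁻¹)⁻¹ * A ^ 4 * (B * A⁻¹) * (A * B)⁻¹ =
      z * ((A ^ 2 * B * (A ^ 3)⁻¹) * (A ^ 3 * B * (A ^ 2)⁻¹)⁻¹ * A ^ 4 * (B * A⁻¹) *
      (A * B)⁻¹) := by
    group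
  rw [e4, e2, hz2]

private theorem second {G : Type} [Group G] (a1 b1 a2 b2 : G)
    (h : a1 * b1 * a1⁻¹ * b1⁻¹ * (a2 * b2 * a2⁻¹ * b2⁻¹) = 1) (n : ℕ) :
      a1 ^ n * b1 * (a1 ^ n)⁻¹ * b1⁻¹ *
        (List.ofFn fun i : Fin n => (a1 ^ (i : ℕ) * a2 * (a1 ^ (i : ℕ))⁻¹) *
          (a1 ^ (i : ℕ) * b2 * (a1 ^ (i : ℕ))⁻¹) * (a1 ^ (i : ℕ) * a2 * (a1 ^ (i : ℕ))⁻¹)⁻¹ *
          (a1 ^ (i : ℕ) * b2 * (a1 ^ (i : ℕ))⁻¹)⁻¹).prod = 1 := by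
  obtain ⟨c, hc⟩ : ∃ c, c = a2 * b2 * a2⁻¹ * b2⁻¹ := ⟨_, rfl⟩
  rw [← hc] at h
  have hf : ∀ n : ℕ, (fun i : Fin n => (a1 ^ (i : ℕ) * a2 * (a1 ^ (i : ℕ))⁻¹) *
          (a1 ^ (i : ℕ) * b2 * (a1 ^ (i : ℕ))⁻¹) * (a1 ^ (i : ℕ) * a2 * (a1 ^ (i : ℕ))⁻¹)⁻¹ *
          (a1 ^ (i : ℕ) * b2 * (a1 ^ (i : ℕ))⁻¹)⁻¹) =
      fun i : Fin n => a1 ^ (i : ℕ) * c * (a1 ^ (i : ℕ))⁻¹ := by
    intro n
    funext i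
    rw [hc]
    generalize a1 ^ (i : ℕ) = p
    group
  rw [hf]
  induction n with
  | zero => simp
  | succ n ih =>
    rw [List.ofFn_succ', List.concat_eq_append, List.prod_append, List.prod_singleton]
    simp only [Fin.val_castSucc, Fin.val_last]
    obtain ⟨P, hP⟩ : ∃ P, P = (List.ofFn fun i : Fin n =>
      a1 ^ (i : ℕ) * c * (a1 ^ (i : ℕ))⁻¹).prod := ⟨_, rfl⟩
    rw [← hP] at ih ⊢
    have h1 : a1 * b1 * a1⁻¹ * b1⁻¹ = c⁻¹ := eq_inv_of_mul_eq_one_left h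
    rw [pow_succ]
    generalize a1 ^ n = p at ih ⊢
    have h2 : p * a1 * b1 * (p * a1)⁻¹ * b1⁻¹ * (P * (p * c * p⁻¹)) =
        (p * (a1 * b1 * a1⁻¹ * b1⁻¹) * p⁻¹) * (p * b1 * p⁻¹ * b1⁻¹ * P) * (p * c * p⁻¹) := by
      group
    rw [h2, h1, ih]
    group

theorem cWRD : St_WRD := by
  refine ⟨?_, ?_⟩
  · intro G _ A B h1 h2
    refine first A B _ rfl h1 ?_
    rw [← pow_add]
    exact h2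
  · intro G _ a1 b1 a2 b2 h n
    exact second a1 b1 a2 b2 h n

end Pool.Agent.Helper72.QG
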